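import Mathlib
import Pool.Agent.H9.Cube2

set_option autoImplicit false

namespace Pool.Agent.Results.MP_485030_co.AllBut

theorem result (n : ℕ) (h0 : n ≠ 0) (h2 : n ≠ 2) (h4 : n ≠ 4) (h6 : n ≠ 6) :
    ∃ v : Fin (n + 1) → Fin n → ℝ, AffineIndependent ℝ v ∧
      convexHull ℝ (Set.range v) ⊆ Set.Icc 0 1 ∧ Set.Icc 0 1 ⊆
        AffineMap.homothety (Finset.univ.centroid ℝ v) (n : ℝ) '' convexHull ℝ (Set.range v) :=
  Pool.Agent.H9.Cube.main2 n h0 h2 h4 h6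

end Pool.Agent.Results.MP_485030_co.AllBut
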